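import Pool.Agent.Q2N.Base
import Pool.Agent.Helper90_Q2N.Stmts

/-!
# The statements of the disproof of Q2 of MP_87570e_al

`F` is the field of constants, `K` the function field, `S : Dat F K` its places and its free
automorphism `σ`, `DD S.σ = K(y;σ)`, `end0 S`, `endI S` its two ends (`y = 0`, `y = ∞`).
The docstring of every statement contains its proof.
-/

set_option autoImplicit false

open Module

namespace Pool.Agent.Q2N

open Pool.Agent.UW

/-- `-(n : ℕ)` as a value -/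
def ng (n : ℕ) : WithTop ℤ := ((-(n : ℤ) : ℤ) : WithTop ℤ)

/-- `K` is generated as a field by the constants and the translates of `f`. -/
def Gen {F K : Type} [Field F] [Field K] [Algebra F K] (S : Dat F K) (f : K) : Prop :=
  ∀ L : Subfield K, (∀ c : F, algebraMap F K c ∈ L) → (∀ n : ℤ, (S.σ ^ n) f ∈ L) → L = ⊤

/-- `c` is an involution of `K` over the automorphism `e` of the constants, inverting `σ` and fixing
the nonconstant function `f`. -/
structure Sym {F K : Type} [Field F] [Field K] [Algebra F K] (S : Dat F K) (c : RingAut K)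
    (e : RingAut F) (f : K) : Prop where
  alg : ∀ z : F, c (algebraMap F K z) = algebraMap F K (e z)
  inv : ∀ x, c (c x) = x
  comm : ∀ x, c (S.σ x) = S.σ⁻¹ (c x)
  fix : c f = f
  nc : ∀ z : F, algebraMap F K z ≠ f

/-! ## The field `K` -/

/-- ELL. `K` = the field of meromorphic functions on `ℂ` with periods `1` and `i` (germs along the
filter of codiscrete sets, or meromorphic functions in normal form), `X = ℂ/ℤ[i]`,
`v p = meromorphicOrderAt _ p`, `σ f (z) = f(z + i √2)`, `τ p = p + i √2`, `c f (z) = conj (f (conj z))`.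
`fin`: compactness of a fundamental parallelogram; `const`: Liouville; nonconstant: Weierstrass `P`
(`PeriodPair.weierstrassP`) of the lattice, `f = P + c P` or `i (P - c P)` is nonconstant and fixed by
`c` (or `c P = P` directly); `free`: `n i √2 ∈ ℤ[i]` only for `n = 0`. -/
def EllStmt : Prop := ∃ (K : Type) (_ : Field K) (_ : Algebra ℂ K) (S : Dat ℂ K) (c : RingAut K)
    (f : K), Sym S c (starRingAut (R := ℂ)) f

/-- REST. Restriction to the subfield generated by the constants and the translates `σ^n f` of `f`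
(`c σ^n f = σ^-n f`, so it is stable under `σ` and `c`; restrict `v`, everything is inherited). -/
def RestStmt : Prop := ∀ (F K : Type) [Field F] [Field K] [Algebra F K] (S : Dat F K) (c : RingAut K)
    (e : RingAut F) (f : K), Sym S c e f →
    ∃ (K₁ : Type) (_ : Field K₁) (_ : Algebra F K₁) (S₁ : Dat F K₁) (c₁ : RingAut K₁) (f₁ : K₁),
      Sym S₁ c₁ e f₁ ∧ Gen S₁ f₁

/-- DIM. `dim (U W) ≥ dim U + dim W - 1`: the valuation at one point has residue field `F`
(`Dat.res`), so the dimension of a finite dimensional subspace is the number of values of its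
nonzero elements, and `|A + B| ≥ |A| + |B| - 1` for finite sets of integers. -/
def DimStmt : Prop := ∀ (F K : Type) [Field F] [Field K] [Algebra F K] (_ : Dat F K)
    (U W : Submodule F K), FiniteDimensional F U → FiniteDimensional F W → U ≠ ⊥ → W ≠ ⊥ →
    finrank F U + finrank F W ≤ finrank F (U * W : Submodule F K) + 1

/-- FDH. The functions with pole order at most `ν p` at `p`, `ν` of finite support: dimension at most
`1 + ∑ ν` (induction on `∑ ν`: the value `-ν p` at one point `p` with `ν p > 0` costs one dimension by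
`Dat.res`; for `ν = 0` only constants by `Dat.const`). -/
def FdhStmt : Prop := ∀ (F K : Type) [Field F] [Field K] [Algebra F K] (S : Dat F K) (ν : S.X → ℕ),
    {p | ν p ≠ 0}.Finite → ∀ U : Submodule F K, (∀ f ∈ U, ∀ p, ng (ν p) ≤ S.v p f) →
      FiniteDimensional F U ∧ finrank F U ≤ 1 + ∑ᶠ p, ν p

/-- IND. The powers `σ^(m i)(u)^(e+1)`, `0 ≤ i ≤ n`, `0 ≤ e < n`, are linearly independent
(`u` nonconstant has a pole; take a pole `q` of `u` such that no `τ^j q`, `j > 0` when `m < 0` resp.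
`j < 0` when `m > 0`.. is a pole (finitely many poles, free orbit): at `τ^(-m i) q` the function
`σ^(m i) u` has a pole and the `σ^(m i') u` with `i' < i` resp. `i' > i` have none; so peel off one `i`
after the other, and for a single `i` the powers have different orders). -/
def IndStmt : Prop := ∀ (F K : Type) [Field F] [Field K] [Algebra F K] (S : Dat F K) (u : K),
    (∀ c : F, algebraMap F K c ≠ u) → ∀ m : ℤ, m ≠ 0 → ∀ n : ℕ,
      LinearIndependent F (fun q : Fin (n + 1) × Fin n =>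
        ((S.σ ^ (m * ((q.1 : ℕ) : ℤ))) u) ^ ((q.2 : ℕ) + 1))

/-! ## Windows -/

/-- BASEW. A left fraction `u = P⁻¹ Q` of Laurent polynomials has windows. Divide by the lowest
coefficient of `P = ∑_(i ≥ a) p_i t^i`: with `p'_r = σ^-a(p_(a+r) / p_a)`, `q'_j = σ^-a(q_(j+a)/p_a)`
we have `u_j = q'_j - ∑_(r ≥ 1) p'_r σ^r(u_(j-r))`. Let `o` be a lower bound of the exponents of `u`
and `Q'`, `m p` the maximal pole order at `p` of the finitely many `p'_r`, `q'_j`. Induction on `j`: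
`v_p(u_j) ≥ - ∑_(0 ≤ s ≤ j-o) m(τ^s p)` for `j ≥ o` and `u_j = 0` for `j < o`. Take `c ≥ |o|`. -/
def BasewStmt : Prop := ∀ (F K : Type) [Field F] [Field K] [Algebra F K] (S : Dat F K)
    (u P Q : SkewLaurent K S.σ), P ≠ 0 → P * u = Q → (∃ n : ℤ, ∀ i > n, P.coeff i = 0) →
    (∃ n : ℤ, ∀ i > n, Q.coeff i = 0) →
    ∃ (m : S.X → ℕ) (c : ℕ), {p | m p ≠ 0}.Finite ∧ Win S m c u

/-- WINM. Windows of `V^z` for coefficients of exponent `≤ 0`. With BASEW and `E.rat` choose common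
`m`, `c` and a common lower bound `-p0` of the exponents for a basis of `V`. In a product of `z`
factors the exponents `j_1 + .. + j_z = -n ≤ 0`, `j_i ≥ -p0`, have partial sums in `[-p0 z, p0 z]`, so a
pole `p` of `σ^(s)(a_(j_i))` satisfies `τ^t p ∈ supp m` with `|t| ≤ (2 p0 + c) z`. (Easiest: induction on
`z` for the statement: for `x ∈ V^z` and all `j`, a pole `p` of the coefficient of `t^j` satisfies
`τ^t p ∈ T` for some `-C z ≤ t ≤ max(j,0) + C z`.) -/
def WinmStmt : Prop := BasewStmt → ∀ (F K : Type) [Field F] [Field K] [Algebra F K] (S : Dat F K)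
    (D : Type) [DivisionRing D] [Algebra F D] (E : EndOf S D) (V : Submodule F D),
    FiniteDimensional F V → ∃ T : Set S.X, T.Finite ∧ ∃ C : ℕ, ∀ z : ℕ, 1 ≤ z → ∀ x ∈ V ^ z,
      ∀ (n : ℕ) (p : S.X), S.v p ((E.χ x).coeff (-(n : ℤ))) < 0 →
        ∃ t : ℤ, |t| ≤ (C * z : ℕ) ∧ (S.τ ^ t) p ∈ T

/-- WINP. Type (+): all coefficients of exponent `≥ 1` of all elements of `A` have pole order at most
`ν`, `ν` supported in finitely many half orbits. `A` is generated by finitely many elements of order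
`≥ 1` (subtract the residues); choose common `m`, `c` (BASEW). Put
`B(p) = ∑_(t ≥ -c) min(t+c+1, 2c+2) m(τ^t p)` (finite sum). Claim: `v_p(x_j) ≥ -B(p)` for all `j` and all
products `x` of generators; induction `x = w x'`, `x_j = ∑_(1 ≤ i < j) w_i σ^i(x'_(j-i))` because
`1_(t ≤ i+c) + ω(t-i) ≤ ω(t)` for `t ≥ -c`, `i ≥ 1`, `ω(t) = min(t+c+1, 2c+2)` (`ω = 0` below `-c`). -/
def WinpStmt : Prop := BasewStmt → ∀ (F K : Type) [Field F] [Field K] [Algebra F K] (S : Dat F K)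
    (D : Type) [DivisionRing D] [Algebra F D] (E : EndOf S D) (A : Subalgebra F D), A.FG →
    Pos E A → ∃ ν : S.X → ℕ, Fwd S ν ∧ ∀ x ∈ A, ∀ j : ℤ, 1 ≤ j → ∀ p,
      ng (ν p) ≤ S.v p ((E.χ x).coeff j)

/-! ## Type (+,+) -/

/-- SEP. An element whose differences `del j` vanish for large `j` (resp. small `j`) is a Laurent
polynomial: the coefficient of `y^j` in `ψ'` is `0` for large `j`, so `ψ d` is a Laurent polynomial
`ψ q`, `q ∈ RR`, and `ψ` is injective. -/
def SepStmt : Prop := ∀ (K : Type) [Field K] (φ : RingAut K) (d : DD φ) (j0 : ℤ),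
    ((∀ j, j0 ≤ j → del φ j d = 0) → d ∈ RR φ) ∧ ((∀ j, j ≤ j0 → del φ j d = 0) → d ∈ RR φ)

/-- SEPL. Every `K`-linear functional on `Y`, zero on `Y ∩ RR`, `Y` finite dimensional modulo `RR`, is a
finite combination of the `del j`, `j ≥ 1` (and also of the `del j`, `j ≤ -1`): by SEP they have no
common zero on `Y / (Y ∩ RR)`. -/
def SeplStmt : Prop := SepStmt → ∀ (K : Type) [Field K] (φ : RingAut K) (Y : Submodule K (DD φ))
    (s : Finset (DD φ)), Y ≤ Rs φ ⊔ Submodule.span K (s : Set (DD φ)) → ∀ lam : ↥Y →ₗ[K] K,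
    (∀ d : ↥Y, (d : DD φ) ∈ RR φ → lam d = 0) →
    (∃ (J : Finset ℤ) (θ : ℤ → K), (∀ j ∈ J, 1 ≤ j) ∧
      ∀ d : ↥Y, lam d = ∑ j ∈ J, θ j * del φ j (d : DD φ)) ∧
    (∃ (J : Finset ℤ) (θ : ℤ → K), (∀ j ∈ J, j ≤ -1) ∧
      ∀ d : ↥Y, lam d = ∑ j ∈ J, θ j * del φ j (d : DD φ))

/-- the row `(σ f_1, .., σ f_ρ)` times the matrix `G` -/
def act {K : Type} [Field K] (φ : RingAut K) {ρ : ℕ} (G : Matrix (Fin ρ) (Fin ρ) K)
    (f : Fin ρ → K) : Fin ρ → K := Matrix.vecMul (fun i => φ (f i)) G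

/-- PULL. One half of LEMMA H. For a matrix `G` there is `ν` (the sum of `μ` and of
`∑_(i ≥ 0) m_G(τ^i p)`, `m_G` the maximal pole order of the entries) supported in half orbits such that
every sequence of rows `z s` with `z s = act G (z (s+1))`, of pole order at most `μ p` at `τ^s p` for
large `s`, has pole order at most `ν` at the start: `z 0 = σ^s(z s) σ^(s-1)(G) .. σ(G) G`. -/
def PullStmt : Prop := ∀ (F K : Type) [Field F] [Field K] [Algebra F K] (S : Dat F K)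
    (μ : S.X → ℕ), Fwd S μ → ∀ (ρ : ℕ) (G : Matrix (Fin ρ) (Fin ρ) K),
    ∃ ν : S.X → ℕ, Fwd S ν ∧ ∀ z : ℕ → Fin ρ → K, (∀ s, z s = act S.σ G (z (s + 1))) →
      (∀ p, ∃ s0 : ℕ, ∀ s : ℕ, s0 ≤ s → ∀ i, ng (μ p) ≤ S.v ((S.τ ^ s) p) (z s i)) →
      ∀ i p, ng (ν p) ≤ S.v p (z 0 i)

/-- LEMH (LEMMA H). With SEPL each coordinate of `π` is `∑ θ_j del_j`, `j ≥ 1`; for `x ∈ A ∩ Y` put
`z s = π(y^-s x)`; `del_j(y^-s x) = σ^-s(del_(j+s)(x))` (`del_mo_mul`) has order `≥ -μ p` at `τ^s p`, and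
`θ_j` is regular at `τ^s p` for large `s`. PULL gives `ν₊`. The other side: `y`, `S.inv`, `j ≤ -1`, the
matrix `σ⁻¹(G⁻¹)` gives `ν₋` (`Fwd S.inv`). `ν = min(ν₊, ν₋)` has finite support because `τ` is free. -/
def LemhStmt : Prop := SepStmt → SeplStmt → PullStmt →
    ∀ (F K : Type) [Field F] [Field K] [Algebra F K] (S : Dat F K)
    (A : Set (DD S.σ)) (μ μ' : S.X → ℕ), Fwd S μ → Fwd S.inv μ' →
    (∀ x ∈ A, ∀ j : ℤ, 1 ≤ j → ∀ p, ng (μ p) ≤ S.v p (del S.σ j x)) →
    (∀ x ∈ A, ∀ j : ℤ, j ≤ -1 → ∀ p, ng (μ' p) ≤ S.v p (del S.σ j x)) →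
    ∀ (ρ : ℕ) (G : Matrix (Fin ρ) (Fin ρ) K), IsUnit G →
    ∃ ν : S.X → ℕ, {p | ν p ≠ 0}.Finite ∧
      ∀ (Y : Submodule K (DD S.σ)) (s : Finset (DD S.σ)),
        Y ≤ Rs S.σ ⊔ Submodule.span K (s : Set (DD S.σ)) →
        ∀ (hst : ∀ d ∈ Y, y S.σ * d ∈ Y), (∀ d ∈ Y, (y S.σ)⁻¹ * d ∈ Y) →
        ∀ π : ↥Y →ₗ[K] (Fin ρ → K), (∀ d : ↥Y, (d : DD S.σ) ∈ RR S.σ → π d = 0) →
        (∀ d : ↥Y, π ⟨y S.σ * (d : DD S.σ), hst _ d.2⟩ = act S.σ G (π d)) →
        ∀ x : ↥Y, (x : DD S.σ) ∈ A → ∀ i p, ng (ν p) ≤ S.v p (π x i)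

/-- LEMT (LEMMA T). Finitely many types. `A` is generated by a finite set `V`; `L_1 = R + R V` is finite
dimensional over `K` modulo `R` (`left_den`); `R = Z_0 < Z_1 < .. < Z_s = L_1` stable subspaces with
simple quotients `M_k = Z_k/Z_(k-1)`, `G k` the matrix of `y` in a basis of `M_k`. For `b ∈ A`, `b ∉ R`:
`b ∈ L_(n+1) = R V^(n+1)`, reached from `R` by adding `Z_k w` one after the other (`w ∈ V^n`), each
quotient is a quotient of `M_k`, i.e. `0` or `M_k`. `Y` = the first step that contains `b`. -/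
def LemtStmt : Prop := ∀ (F K : Type) [Field F] [Field K] [Algebra F K] (S : Dat F K)
    (A : Subalgebra F (DD S.σ)), A.FG →
    ∃ (N : ℕ) (ρ : Fin N → ℕ) (G : (k : Fin N) → Matrix (Fin (ρ k)) (Fin (ρ k)) K),
      (∀ k, IsUnit (G k)) ∧ ∀ b ∈ A, b ∉ RR S.σ →
      ∃ (k : Fin N) (Y : Submodule K (DD S.σ)) (s : Finset (DD S.σ))
        (_ : Y ≤ Rs S.σ ⊔ Submodule.span K (s : Set (DD S.σ)))
        (hst : ∀ d ∈ Y, y S.σ * d ∈ Y) (_ : ∀ d ∈ Y, (y S.σ)⁻¹ * d ∈ Y) (hb : b ∈ Y)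
        (π : ↥Y →ₗ[K] (Fin (ρ k) → K)),
        (∀ d : ↥Y, (d : DD S.σ) ∈ RR S.σ → π d = 0) ∧
        (∀ d : ↥Y, π ⟨y S.σ * (d : DD S.σ), hst _ d.2⟩ = act S.σ (G k) (π d)) ∧
        π ⟨b, hb⟩ ≠ 0

/-- PLUS. Type (+,+) is impossible. Choose `U ≤ K` of dimension larger than all the
`dim {w : Fin ρ_k → K, v_p(w i) ≥ -ν_k p}` (FDH), `1 ∈ U`, `U` not constant (powers of a nonconstant
function). `Frac A` gives `s ≠ 0` in `A` with `U s ⊆ A` (common right denominator:
`s⁻¹ t = p q⁻¹`, `t q = s p`). If `s ∉ R`: LEMT gives `Y`, `π` and `u ↦ π(u s) = u π(s)` embeds `U` in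
`H_k` (LEMH; in type (+,+) `del j x = (ψ x).coeff j` for `j ≥ 1` and `-(ψ' x).coeff (-j)` for `j ≤ -1`).
So `s ∈ R`, hence `s = ι f`, `f` constant (Pos), `U ⊆ A`, but the residue of `u ∈ U` is `u`. -/
def PlusStmt : Prop := BasewStmt → WinpStmt → SepStmt → SeplStmt → PullStmt → LemhStmt → FdhStmt →
    LemtStmt → ∀ (F K : Type) [Field F] [Field K] [Algebra F K] (S : Dat F K)
    (A : Subalgebra F (DD S.σ)), A.FG → Frac A → Pos (end0 S) A → Pos (endI S) A → False

/-! ## Orders, growth, signs -/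

/-- ORE (Jategaonkar). Polynomial growth implies the right Ore condition: if `a A ∩ b A = 0`, the
`2^n` words of length `n` in `a`, `b` are linearly independent (`∑ c_w w = a P + b Q = 0` implies
`P = Q = 0`, induction) and lie in `V^n`, `V = span {1, a, b}`. -/
def OreStmt : Prop := ∀ (F D : Type) [Field F] [DivisionRing D] [Algebra F D] (A : Subalgebra F D)
    (d : ℝ), GKle F A d → ∀ a ∈ A, ∀ b ∈ A, a ≠ 0 → b ≠ 0 →
      ∃ c ∈ A, ∃ e ∈ A, c ≠ 0 ∧ a * c = b * e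

/-- FRC. With the right Ore condition the right fractions form a subalgebra closed under inverses. -/
def FrcStmt : Prop := ∀ (F D : Type) [Field F] [DivisionRing D] [Algebra F D] (A : Subalgebra F D),
    (∀ a ∈ A, ∀ b ∈ A, a ≠ 0 → b ≠ 0 → ∃ c ∈ A, ∃ e ∈ A, c ≠ 0 ∧ a * c = b * e) →
    ∃ Q : Subalgebra F D, (∀ x, x ∈ Q ↔ ∃ a ∈ A, ∃ s ∈ A, s ≠ 0 ∧ x = a * s⁻¹) ∧
      ∀ x ∈ Q, x⁻¹ ∈ Q

/-- GEND. `K(y;σ)` is generated by the constants, `y` and `f` as a division ring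
(`σ^n f = y^n f y^-n`; `left_den`: every element is a left fraction of sums of `f y^n`). -/
def GendStmt : Prop := ∀ (F K : Type) [Field F] [Field K] [Algebra F K] (S : Dat F K) (f : K),
    Gen S f → ∀ Q : Subalgebra F (DD S.σ), (∀ x ∈ Q, x⁻¹ ∈ Q) → y S.σ ∈ Q → ι S.σ f ∈ Q → Q = ⊤

/-- RED. Reduction to finitely generated orders: `B` is generated by numerators and denominators of
`y` and `f`; ORE, FRC, GEND. -/
def RedStmt : Prop := OreStmt → FrcStmt → GendStmt →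
    ∀ (F K : Type) [Field F] [Field K] [Algebra F K] (S : Dat F K) (f : K),
    Gen S f → ∀ A : Subalgebra F (DD S.σ), GKle F A 2 → Frac A →
      ∃ B : Subalgebra F (DD S.σ), B ≤ A ∧ B.FG ∧ GKle F B 2 ∧ Frac B

/-- AMB. `A₀ = F⟨y, f y⟩` is an order of GK dimension 2. `V₀ = span {1, y, f y}`; `V₀^n` is contained in
`⊕_(m ≤ n) L(D_m) y^m`, `D_m = ∑_(i<m)` (poles of `σ^i f`), dimension `≤ 1 + m deg` (FDH), and every f.d.
`V ≤ A₀` lies in some `V₀^r`. Lower bound: the words of length `m` in `y`, `f y` span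
`U σ(U) .. σ^(m-1)(U) y^m`, `U = span {1, f}`, of dimension `≥ m + 1` (DIM). Fractions: ORE, FRC, GEND
(`f = (f y) y⁻¹`). -/
def AmbStmt : Prop := FdhStmt → DimStmt → OreStmt → FrcStmt → GendStmt →
    ∀ (F K : Type) [Field F] [Field K] [Algebra F K] (S : Dat F K) (f : K),
    (∀ z : F, algebraMap F K z ≠ f) → Gen S f →
      ∃ A : Subalgebra F (DD S.σ), A.FG ∧ GKle F A 2 ∧ GKge F A ∧ Frac A

/-- SG1. Elements of order `≥ 0` have constant residue. Let `u ∈ A`, order `≥ 0`, residue `ū` not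
constant (so the order is `0`). Some `b ∈ A` has order `m ≠ 0` (`t = a b⁻¹`). The elements
`b^i u^(e+1) b^(n'-i)`, `i ≤ n'`, `e < n`, `n' ≤ n`, of order `m n'` and leading coefficient
`lead(b^i) σ^(m i)(ū^(e+1) lead(b^(n'-i))) = lead(b^n') (σ^(m i) ū)^(e+1)`, are independent (IND), about
`n^3/2` of them in `V^(2n)`, `V = span {1, b, u}`: against GK `≤ 2`. -/
def Sg1Stmt : Prop := IndStmt → ∀ (F K : Type) [Field F] [Field K] [Algebra F K] (S : Dat F K)
    (D : Type) [DivisionRing D] [Algebra F D] (E : EndOf S D) (A : Subalgebra F D), Frac A →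
    GKle F A 2 → ∀ u ∈ A, E.χ u ∈ SkewLaurent.P K S.σ 0 →
      ∃ c : F, (E.χ u).coeff 0 = algebraMap F K c

/-- SG2. If residues are constant then the orders on `A` have one sign: if `v(a) > 0 > v(b)`, then the
orders form a group; a nonconstant `f ∈ K` is `a₁ a₂⁻¹`, `v(a₁) = v(a₂) = n`, some `c ∈ A` has
`v(c) = -n` (`c = a₁^(m-1) b^|n|`, `v(b) = ∓m`), the residues of `a₁ c`, `a₂ c` are constant with
quotient `f`. Then: all orders `≥ 0` is Pos; all orders `≤ 0` is Neg (`x - residue` has order `> 0`). -/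
def Sg2Stmt : Prop := ∀ (F K : Type) [Field F] [Field K] [Algebra F K] (S : Dat F K)
    (D : Type) [DivisionRing D] [Algebra F D] (E : EndOf S D) (A : Subalgebra F D), Frac A →
    (∀ u ∈ A, E.χ u ∈ SkewLaurent.P K S.σ 0 → ∃ c : F, (E.χ u).coeff 0 = algebraMap F K c) →
    Neg E A ∨ Pos E A

/-- MINUS. Type (-,-) is impossible: bridge to `H90.MMStmt`. `Poles` : `pol f = {p | v p f < 0}`, `dim_mul` =
DIM. `End1` of `A` for `end0 S`: `c n x = (ψ x).coeff (-n)`, `phi = σ⁻¹`, `T = τ⁻¹`, `lev0` = Neg, `win` = WINM;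
for `endI S` the same with `S.inv`. `y = a b⁻¹` with `a, b ∈ A`: levels `N(b) = N(a) + 1`,
`N'(a) = N'(b) + 1`; `N(a) = 0` would mean `a` constant, `N'(a) = 0`; so `N(a), N'(b) ≥ 1`. A nonconstant
`f = x x'⁻¹` gives the two elements of the same level with independent leading coefficients.
`GK2 F ↥A` from `GKle F A 2`. -/
def MinusStmt : Prop := H90.MMStmt → BasewStmt → WinmStmt → DimStmt →
    ∀ (F K : Type) [Field F] [Field K] [Algebra F K] (S : Dat F K)
    (A : Subalgebra F (DD S.σ)), Frac A → GKle F A 2 → Neg (end0 S) A → Neg (endI S) A → False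

/-! ## Assembly over the reals -/

/-- GINV. The involution `g` of `K(y;φ)`, `g y = y⁻¹`, `g = c` on `K`: exchange the two expansions and
apply `c` to the coefficients. -/
def GinvStmt : Prop := ∀ (K : Type) [Field K] (φ c : RingAut K), (∀ x, c (φ x) = φ⁻¹ (c x)) →
    (∀ x, c (c x) = x) → ∃ g : DD φ ≃+* DD φ, (∀ d, g (g d) = d) ∧
      (∀ d j, (ψ φ (g d)).coeff j = c ((ψ' φ d).coeff j)) ∧
      (∀ d j, (ψ' φ (g d)).coeff j = c ((ψ φ d).coeff j))

/-- CPX. Complexification of a real order: `A = A' + i A'`; `V ≤ ℂ V'`, `V' ≤ A'` real, and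
`dim_ℂ V^n ≤ dim_ℂ ℂ V'^n ≤ dim_ℝ V'^n`. -/
def CpxStmt : Prop := ∀ (D : Type) [DivisionRing D] [Algebra ℂ D] [Algebra ℝ D]
    [IsScalarTower ℝ ℂ D] (A' : Subalgebra ℝ D), GKle ℝ A' 2 →
    ∃ A : Subalgebra ℂ D, (∀ x, x ∈ A ↔ ∃ a ∈ A', ∃ b ∈ A', x = a + algebraMap ℂ D Complex.I * b) ∧
      GKle ℂ A 2

/-- REA. A complex order of GK dimension 2 is a real one. FG: add `i` to the generators. Upper bound:
`V ≤ ℂ V`, `dim_ℝ (ℂ V)^n = 2 dim_ℂ (ℂ V)^n`. Lower bound: `V` complex, `dim_ℝ V^n = 2 dim_ℂ V^n`. -/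
def ReaStmt : Prop := ∀ (D : Type) [DivisionRing D] [Algebra ℂ D] [Algebra ℝ D]
    [IsScalarTower ℝ ℂ D] (A : Subalgebra ℂ D), A.FG → GKle ℂ A 2 → GKge ℂ A →
    (A.restrictScalars ℝ).FG ∧ GKle ℝ (A.restrictScalars ℝ) 2 ∧ GKge ℝ (A.restrictScalars ℝ)

/-- ASM. The final theorem from everything. `S, c, f` from ELL, REST; `D = DD S.σ` over `ℝ`; `A` from AMB,
REA; `D' = {x | g x = x}`. Let `A' ≤ D'` be an order of `D'` with GK `≤ 2`. `A = A' + i A'` (CPX) has
`Frac A` (`x = u + i w`, `u = (x + g x)/2`, `w = (x - g x)/(2i)` in `D'`, common denominator in `A'`).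
SG1, SG2 at `end0 S` and `endI S`; the types agree: a nonconstant `x ∈ A'` (there is one, since
`D' ≠ ℝ`) has `(ψ' x).coeff j = c((ψ x).coeff j)`, so Neg at one end and Pos at the other is impossible.
(-,-): MINUS. (+,+): RED (Pos is inherited by `B`), PLUS. -/
def AsmStmt : Prop :=
  ∃ (D : Type) (_ : DivisionRing D) (_ : Algebra ℝ D) (A : Subalgebra ℝ D),
    A.FG ∧ GKle ℝ A 2 ∧ GKge ℝ A ∧ (∀ x : D, ∃ a ∈ A, ∃ s ∈ A, s ≠ 0 ∧ x = a * s⁻¹) ∧
    ∃ D' : Subalgebra ℝ D, (∀ x ∈ D', x⁻¹ ∈ D') ∧ ¬ ∃ A' : Subalgebra ℝ D, A' ≤ D' ∧ GKle ℝ A' 2 ∧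
      ∀ x ∈ D', ∃ a ∈ A', ∃ s ∈ A', s ≠ 0 ∧ x = a * s⁻¹

end Pool.Agent.Q2N
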