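import Pool.Agent.Q2N.Defs

/-!
# Algebra structures on `K(y;σ)` and the notions used in the statements
-/

set_option autoImplicit false

namespace Pool.Agent.Q2N

open Pool.Agent.UW

section Mod

variable {K : Type} [Field K] {φ : RingAut K}

/-- `K(y;φ)` as a left vector space over `K` -/
noncomputable instance : Module K (DD φ) := Module.compHom _ (ι φ)

theorem smul_eq (f : K) (d : DD φ) : f • d = ι φ f * d := rfl

theorem ψ_smul_coeff (f : K) (d : DD φ) (i : ℤ) : (ψ φ (f • d)).coeff i = f * (ψ φ d).coeff i := by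
  rw [smul_eq, map_mul]
  show (sgl φ f 0 * ψ φ d).coeff i = _
  rw [sgl_mul_coeff, zpow_zero, sub_zero]
  rfl

theorem ψ'_smul_coeff (f : K) (d : DD φ) (i : ℤ) :
    (ψ' φ (f • d)).coeff i = f * (ψ' φ d).coeff i := by
  rw [smul_eq, map_mul]
  show (sgl φ⁻¹ f (-0) * ψ' φ d).coeff i = _
  rw [neg_zero, sgl_mul_coeff, zpow_zero, sub_zero]
  rfl

/-- The Laurent polynomials as a left `K`-subspace. -/
noncomputable def Rs (φ : RingAut K) : Submodule K (DD φ) where
  carrier := (RR φ : Set (DD φ))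
  add_mem' := fun ha hb => Subring.add_mem (RR φ) ha hb
  zero_mem' := Subring.zero_mem (RR φ)
  smul_mem' := fun f _ hd => Subring.mul_mem (RR φ) (mo_mem f 0) hd

theorem mem_Rs {d : DD φ} : d ∈ Rs φ ↔ d ∈ RR φ := Iff.rfl

/-- the difference of the two coefficients of `y^j` -/
noncomputable def del (φ : RingAut K) (j : ℤ) : DD φ →ₗ[K] K where
  toFun d := (ψ φ d).coeff j - (ψ' φ d).coeff (-j)
  map_add' := by
    intro a b
    rw [map_add, map_add, SkewLaurent.coeff_add, SkewLaurent.coeff_add]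
    ring
  map_smul' := by
    intro f d
    rw [ψ_smul_coeff, ψ'_smul_coeff, RingHom.id_apply, smul_eq_mul]
    ring

theorem del_apply (j : ℤ) (d : DD φ) : del φ j d = (ψ φ d).coeff j - (ψ' φ d).coeff (-j) := rfl

theorem del_RR (j : ℤ) {d : DD φ} (hd : d ∈ RR φ) : del φ j d = 0 := by
  rw [del_apply, mem_RR.1 hd, neg_neg, sub_self]

theorem ψ_mo_mul_coeff (f : K) (n : ℤ) (d : DD φ) (i : ℤ) :
    (ψ φ (mo φ f n * d)).coeff i = f * (φ ^ n) ((ψ φ d).coeff (i - n)) := by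
  rw [map_mul, ψ_mo, sgl_mul_coeff]

theorem ψ'_mo_mul_coeff (f : K) (n : ℤ) (d : DD φ) (i : ℤ) :
    (ψ' φ (mo φ f n * d)).coeff i = f * (φ ^ n) ((ψ' φ d).coeff (i + n)) := by
  rw [map_mul, ψ'_mo, sgl_mul_coeff, inv_zpow, zpow_neg, inv_inv, sub_neg_eq_add]

theorem del_mo_mul (f : K) (n : ℤ) (d : DD φ) (j : ℤ) :
    del φ j (mo φ f n * d) = f * (φ ^ n) (del φ (j - n) d) := by
  rw [del_apply, del_apply, ψ_mo_mul_coeff, ψ'_mo_mul_coeff, map_sub, mul_sub]
  congr 4
  ring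

end Mod

section Dat

variable {F K : Type} [Field F] [Field K] [Algebra F K]

/-- the same places with the inverse automorphism -/
noncomputable def Dat.inv (S : Dat F K) : Dat F K where
  X := S.X
  v := S.v
  v_const := S.v_const
  res := S.res
  fin := S.fin
  const := S.const
  ne := S.ne
  nonconst := S.nonconst
  σ := S.σ⁻¹
  σ_const := by
    intro c
    show S.σ.symm _ = _
    rw [RingEquiv.symm_apply_eq, S.σ_const]
  τ := S.τ⁻¹
  v_σ := by
    intro p f
    have h := S.v_σ (S.τ⁻¹ p) (S.σ⁻¹ f)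
    have h1 : S.σ (S.σ⁻¹ f) = f := S.σ.apply_symm_apply f
    have h2 : S.τ (S.τ⁻¹ p) = p := S.τ.apply_symm_apply p
    rw [h1, h2] at h
    exact h.symm
  free := by
    intro p n h
    rw [inv_zpow] at h
    have h1 : (S.τ ^ n) p = p := by
      conv_lhs => rw [← h]
      exact (S.τ ^ n).apply_symm_apply p
    exact S.free p n h1

theorem σ_zpow_const (S : Dat F K) (n : ℤ) (c : F) :
    (S.σ ^ n) (algebraMap F K c) = algebraMap F K c := by
  have h0 : ∀ (T : Dat F K) (n : ℕ), (T.σ ^ n) (algebraMap F K c) = algebraMap F K c := by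
    intro T n
    induction n with
    | zero => rfl
    | succ n ih =>
      rw [pow_succ]
      show (T.σ ^ n) (T.σ (algebraMap F K c)) = _
      rw [T.σ_const, ih]
  obtain ⟨m, rfl | rfl⟩ := n.eq_nat_or_neg
  · rw [zpow_natCast, h0]
  · rw [zpow_neg, zpow_natCast, ← inv_pow]
    exact h0 S.inv m

theorem v_σ_zpow (S : Dat F K) (n : ℤ) (p : S.X) (f : K) :
    S.v p ((S.σ ^ n) f) = S.v ((S.τ ^ n) p) f := by
  have h0 : ∀ (T : Dat F K) (n : ℕ) (p : T.X) (f : K),
      T.v p ((T.σ ^ n) f) = T.v ((T.τ ^ n) p) f := by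
    intro T n
    induction n with
    | zero => intro p f; rfl
    | succ n ih =>
      intro p f
      rw [pow_succ, pow_succ']
      show T.v p ((T.σ ^ n) (T.σ f)) = T.v (T.τ ((T.τ ^ n) p)) f
      rw [ih, T.v_σ]
  obtain ⟨m, rfl | rfl⟩ := n.eq_nat_or_neg
  · rw [zpow_natCast, zpow_natCast, h0]
  · rw [zpow_neg, zpow_neg, zpow_natCast, zpow_natCast, ← inv_pow, ← inv_pow]
    exact h0 S.inv m p f

theorem sgl_const_comm (S : Dat F K) (c : F) (u : SkewLaurent K S.σ) :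
    sgl S.σ (algebraMap F K c) 0 * u = u * sgl S.σ (algebraMap F K c) 0 := by
  ext i
  rw [sgl_mul_coeff, mul_sgl_coeff, zpow_zero, sub_zero, σ_zpow_const, mul_comm]
  rfl

theorem ι_const_comm (S : Dat F K) (c : F) (d : DD S.σ) :
    ι S.σ (algebraMap F K c) * d = d * ι S.σ (algebraMap F K c) := by
  apply Subtype.ext
  refine Prod.ext ?_ ?_
  · exact sgl_const_comm S c d.1.1
  · show sgl S.σ⁻¹ (algebraMap F K c) (-0) * d.1.2 = d.1.2 * sgl S.σ⁻¹ (algebraMap F K c) (-0)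
    rw [neg_zero]
    exact sgl_const_comm S.inv c d.1.2

/-- `K(y;σ)` as an algebra over the constants -/
noncomputable instance instAlgDD (S : Dat F K) : Algebra F (DD S.σ) :=
  RingHom.toAlgebra' ((ι S.σ).comp (algebraMap F K)) (fun c x => ι_const_comm S c x)

theorem algebraMap_DD (S : Dat F K) (c : F) :
    algebraMap F (DD S.σ) c = ι S.σ (algebraMap F K c) := rfl

/-- growth of order at most `d` -/
def GKle (F : Type) {D : Type} [Field F] [DivisionRing D] [Algebra F D] (A : Subalgebra F D)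
    (d : ℝ) : Prop :=
  ∀ V : Submodule F D, V ≤ Subalgebra.toSubmodule A → FiniteDimensional F ↥V →
    (1 : Submodule F D) ≤ V → ∀ ε : ℝ, 0 < ε →
      ∀ᶠ n : ℕ in Filter.atTop, (Module.finrank F ↥(V ^ n) : ℝ) ≤ (n : ℝ) ^ (d + ε)

/-- GK dimension at least two -/
def GKge (F : Type) {D : Type} [Field F] [DivisionRing D] [Algebra F D] (A : Subalgebra F D) :
    Prop :=
  ∀ d : ℝ, d < 2 → ∃ V : Submodule F D, V ≤ Subalgebra.toSubmodule A ∧
    FiniteDimensional F ↥V ∧ (1 : Submodule F D) ≤ V ∧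
    ∃ ε : ℝ, 0 < ε ∧ ∃ᶠ n : ℕ in Filter.atTop,
      (n : ℝ) ^ (d + ε) < (Module.finrank F ↥(V ^ n) : ℝ)

/-- every element of `D` is a right fraction of elements of `A` -/
def Frac {F D : Type} [Field F] [DivisionRing D] [Algebra F D] (A : Subalgebra F D) : Prop :=
  ∀ x : D, ∃ a ∈ A, ∃ s ∈ A, s ≠ 0 ∧ x = a * s⁻¹

/-- One end of a division ring `D` over `F`: an expansion `χ` with values in the skew Laurent
series, compatible with the constants, with an element of order one and an element of order `≥ 0`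
with non constant residue, such that all expansions are left fractions of Laurent polynomials. -/
structure EndOf (S : Dat F K) (D : Type) [DivisionRing D] [Algebra F D] where
  χ : D →+* SkewLaurent K S.σ
  const : ∀ c : F, χ (algebraMap F D c) = sgl S.σ (algebraMap F K c) 0
  t : D
  χ_t : χ t = sgl S.σ 1 1
  ιK : K →+* D
  χ_ι : ∀ f : K, χ (ιK f) = sgl S.σ f 0
  rat : ∀ d : D, ∃ P Q : SkewLaurent K S.σ, P ≠ 0 ∧ P * χ d = Q ∧
    (∃ n : ℤ, ∀ i > n, P.coeff i = 0) ∧ (∃ n : ℤ, ∀ i > n, Q.coeff i = 0)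

/-- the end `y = 0` of `K(y;σ)` -/
noncomputable def end0 (S : Dat F K) : EndOf S (DD S.σ) where
  χ := ψ S.σ
  const := fun _ => rfl
  t := y S.σ
  χ_t := rfl
  ιK := ι S.σ
  χ_ι := fun _ => rfl
  rat := by
    intro d
    obtain ⟨P, hP, hP0, hPd⟩ := left_den d
    refine ⟨ψ S.σ P, ψ S.σ (P * d), fun h => hP0 (ψ_inj h), (map_mul _ _ _).symm, ?_, ?_⟩
    · obtain ⟨a, b, hab⟩ := lau_supp (φ := S.σ) (z := P.1) hP
      exact ⟨b, fun i hi => hab i (Or.inr hi)⟩
    · obtain ⟨a, b, hab⟩ := lau_supp (φ := S.σ) (z := (P * d).1) hPd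
      exact ⟨b, fun i hi => hab i (Or.inr hi)⟩

theorem mo_inv_one {φ : RingAut K} : mo φ (1 : K) (-1) = (y φ)⁻¹ := by
  rw [mo_eq, map_one, one_mul, zpow_neg, zpow_one]

/-- the end `y = ∞` of `K(y;σ)` -/
noncomputable def endI (S : Dat F K) : EndOf S.inv (DD S.σ) where
  χ := ψ' S.σ
  const := by
    intro c
    show sgl S.σ⁻¹ (algebraMap F K c) (-0) = _
    rw [neg_zero]
    rfl
  t := mo S.σ 1 (-1)
  χ_t := by
    show sgl S.σ⁻¹ 1 (- -1) = _
    rw [neg_neg]
    rfl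
  ιK := ι S.σ
  χ_ι := by
    intro f
    show sgl S.σ⁻¹ f (-0) = _
    rw [neg_zero]
    rfl
  rat := by
    intro d
    obtain ⟨P, hP, hP0, hPd⟩ := left_den d
    refine ⟨ψ' S.σ P, ψ' S.σ (P * d), fun h => hP0 (ψ'_inj h), (map_mul _ _ _).symm, ?_, ?_⟩
    · obtain ⟨a, ha⟩ := (ψ S.σ P).bdd
      exact ⟨-a, fun i hi => by rw [mem_RR.1 hP]; exact ha _ (by lia)⟩
    · obtain ⟨a, ha⟩ := (ψ S.σ (P * d)).bdd
      exact ⟨-a, fun i hi => by rw [mem_RR.1 hPd]; exact ha _ (by lia)⟩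

section OneEnd

variable {S : Dat F K} {D : Type} [DivisionRing D] [Algebra F D]

/-- type (-): every element of `A` outside `F` has negative order -/
def Neg (E : EndOf S D) (A : Subalgebra F D) : Prop :=
  ∀ x ∈ A, E.χ x ∈ SkewLaurent.P K S.σ 0 → ∃ c : F, x = algebraMap F D c

/-- type (+): every element of `A` has order `≥ 0` and constant residue -/
def Pos (E : EndOf S D) (A : Subalgebra F D) : Prop :=
  ∀ x ∈ A, E.χ x ∈ SkewLaurent.P K S.σ 0 ∧ ∃ c : F, (E.χ x).coeff 0 = algebraMap F K c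

/-- window of the coefficients of a series: the order of the coefficient of `t^j` at `p` is at
least `-∑_{-c ≤ s ≤ j+c} m(τ^s p)` -/
def Win (S : Dat F K) (m : S.X → ℕ) (c : ℕ) (u : SkewLaurent K S.σ) : Prop :=
  ∀ (j : ℤ) (p : S.X),
    ((-(∑ s ∈ Finset.Icc (-(c : ℤ)) (j + c), (m ((S.τ ^ s) p) : ℤ)) : ℤ) : WithTop ℤ) ≤
      S.v p (u.coeff j)

/-- `ν` is supported in finitely many half orbits: `ν p ≠ 0` implies `τ^s p ∈ T`, `s ≥ -c` -/
def Fwd (S : Dat F K) (ν : S.X → ℕ) : Prop :=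
  ∃ (T : Set S.X) (c : ℤ), T.Finite ∧ ∀ p, ν p ≠ 0 → ∃ s : ℤ, -c ≤ s ∧ (S.τ ^ s) p ∈ T

end OneEnd

end Dat

end Pool.Agent.Q2N
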