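import Mathlib
import Pool.Agent.Helper89_UW.Skew

/-!
# Interface: a function field with places and a free automorphism, and the division ring `K(y;σ)`
-/

set_option autoImplicit false

namespace Pool.Agent.Q2N

open Pool.Agent.UW

/-- A field `K` over `F` with a set `X` of places (discrete valuations, trivial on `F`, residue
field `F`), such that a function without poles is constant, and an automorphism `σ` of `K` over `F`
that acts freely on the places. -/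
structure Dat (F K : Type) [Field F] [Field K] [Algebra F K] where
  X : Type
  v : X → AddValuation K (WithTop ℤ)
  v_const : ∀ (p : X) (c : F), c ≠ 0 → v p (algebraMap F K c) = 0
  res : ∀ (p : X) (f g : K), f ≠ 0 → g ≠ 0 → v p f = v p g →
    ∃ c : F, v p f < v p (f - algebraMap F K c * g)
  fin : ∀ f : K, f ≠ 0 → {p : X | v p f ≠ 0}.Finite
  const : ∀ f : K, (∀ p, 0 ≤ v p f) → ∃ c : F, algebraMap F K c = f
  ne : Nonempty X
  nonconst : ∃ f : K, ∀ c : F, algebraMap F K c ≠ f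
  σ : RingAut K
  σ_const : ∀ c : F, σ (algebraMap F K c) = algebraMap F K c
  τ : Equiv.Perm X
  v_σ : ∀ (p : X) (f : K), v p (σ f) = v (τ p) f
  free : ∀ (p : X) (n : ℤ), (τ ^ n) p = p → n = 0

section SL

variable {K : Type} [Field K] {φ : RingAut K}

/-- the monomial `f t^n` -/
def sgl (φ : RingAut K) (f : K) (n : ℤ) : SkewLaurent K φ :=
  ⟨fun i => if i = n then f else 0, n, fun _ hi => if_neg hi.ne⟩

theorem sgl_coeff (f : K) (n i : ℤ) : (sgl φ f n).coeff i = if i = n then f else 0 := rfl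

theorem sgl_mul_coeff (f : K) (n : ℤ) (u : SkewLaurent K φ) (i : ℤ) :
    (sgl φ f n * u).coeff i = f * (φ ^ n) (u.coeff (i - n)) := by
  rw [SkewLaurent.coeff_mul, finsum_eq_single _ n]
  · rw [sgl_coeff, if_pos rfl]
  · intro j hj
    rw [sgl_coeff, if_neg hj, zero_mul]

theorem mul_sgl_coeff (f : K) (n : ℤ) (u : SkewLaurent K φ) (i : ℤ) :
    (u * sgl φ f n).coeff i = u.coeff (i - n) * (φ ^ (i - n)) f := by
  rw [SkewLaurent.coeff_mul, finsum_eq_single _ (i - n)]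
  · rw [sgl_coeff, if_pos (by ring)]
  · intro j hj
    rw [sgl_coeff, if_neg (by intro h; exact hj (by lia)), map_zero, mul_zero]

theorem sgl_mul_sgl (f g : K) (n m : ℤ) :
    sgl φ f n * sgl φ g m = sgl φ (f * (φ ^ n) g) (n + m) := by
  ext i
  rw [sgl_mul_coeff, sgl_coeff, sgl_coeff]
  by_cases h : i = n + m
  · rw [if_pos h, if_pos (by lia)]
  · rw [if_neg h, if_neg (by intro h'; exact h (by lia)), map_zero, mul_zero]

theorem sgl_add (f g : K) (n : ℤ) : sgl φ (f + g) n = sgl φ f n + sgl φ g n := by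
  ext i
  rw [SkewLaurent.coeff_add, sgl_coeff, sgl_coeff, sgl_coeff]
  split_ifs
  · rfl
  · rw [add_zero]

theorem sgl_one : sgl φ (1 : K) 0 = 1 := by
  ext i
  rw [sgl_coeff, SkewLaurent.coeff_one]

theorem sgl_zero (n : ℤ) : sgl φ (0 : K) n = 0 := by
  ext i
  rw [sgl_coeff, SkewLaurent.coeff_zero, ite_self]

/-- pairs of expansions (in `t` and in `t⁻¹`) -/
abbrev Pair (φ : RingAut K) := SkewLaurent K φ × SkewLaurent K φ⁻¹

/-- The Laurent polynomials `K[y,y⁻¹;φ]` inside the pairs of expansions. -/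
noncomputable def lau (φ : RingAut K) : Subring (Pair φ) where
  carrier := {z | ∀ i : ℤ, z.2.coeff i = z.1.coeff (-i)}
  mul_mem' := by
    intro a b ha hb i
    show (a.2 * b.2).coeff i = (a.1 * b.1).coeff (-i)
    rw [SkewLaurent.coeff_mul, SkewLaurent.coeff_mul, ← finsum_comp_equiv (Equiv.neg ℤ)]
    apply finsum_congr
    intro j
    rw [Equiv.neg_apply, ha, hb, neg_neg]
    congr 2
    · rw [inv_zpow, zpow_neg, inv_inv]
    · congr 1
      ring
  one_mem' := by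
    intro i
    show (1 : SkewLaurent K φ⁻¹).coeff i = (1 : SkewLaurent K φ).coeff (-i)
    rw [SkewLaurent.coeff_one, SkewLaurent.coeff_one]
    by_cases h : i = 0
    · rw [if_pos h, if_pos (by lia)]
    · rw [if_neg h, if_neg (by lia)]
  add_mem' := by
    intro a b ha hb i
    show (a.2 + b.2).coeff i = (a.1 + b.1).coeff (-i)
    rw [SkewLaurent.coeff_add, SkewLaurent.coeff_add, ha, hb]
  zero_mem' := by
    intro i
    rfl
  neg_mem' := by
    intro a ha i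
    show (-a.2).coeff i = (-a.1).coeff (-i)
    rw [SkewLaurent.coeff_neg, SkewLaurent.coeff_neg, ha]

theorem mem_lau {z : Pair φ} : z ∈ lau φ ↔ ∀ i : ℤ, z.2.coeff i = z.1.coeff (-i) := Iff.rfl

/-- the monomial `f y^n` as a pair of expansions -/
def mon (φ : RingAut K) (f : K) (n : ℤ) : Pair φ := (sgl φ f n, sgl φ⁻¹ f (-n))

theorem mon_mem (f : K) (n : ℤ) : mon φ f n ∈ lau φ := by
  intro i
  show (sgl φ⁻¹ f (-n)).coeff i = (sgl φ f n).coeff (-i)
  rw [sgl_coeff, sgl_coeff]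
  by_cases h : i = -n
  · rw [if_pos h, if_pos (by lia)]
  · rw [if_neg h, if_neg (by lia)]

theorem mon_mul (f g : K) (n m : ℤ) : mon φ f n * mon φ g m = mon φ (f * (φ ^ n) g) (n + m) := by
  show ((sgl φ f n * sgl φ g m, sgl φ⁻¹ f (-n) * sgl φ⁻¹ g (-m)) : Pair φ) = _
  rw [sgl_mul_sgl, sgl_mul_sgl]
  show _ = ((sgl φ (f * (φ ^ n) g) (n + m), sgl φ⁻¹ (f * (φ ^ n) g) (-(n + m))) : Pair φ)
  have h1 : (φ⁻¹ ^ (-n)) g = (φ ^ n) g := by
    rw [inv_zpow, zpow_neg, inv_inv]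
  rw [h1]
  congr 2
  ring

theorem lau_eq_zero {z : Pair φ} (hz : z ∈ lau φ) : z = 0 ↔ z.1 = 0 := by
  constructor
  · rintro rfl
    rfl
  · intro h
    refine Prod.ext h ?_
    ext i
    rw [hz i, h]
    rfl

theorem lau_eq_zero' {z : Pair φ} (hz : z ∈ lau φ) : z = 0 ↔ z.2 = 0 := by
  constructor
  · rintro rfl
    rfl
  · intro h
    refine Prod.ext ?_ h
    ext i
    have h1 := hz (-i)
    rw [neg_neg, h] at h1
    rw [← h1]
    rfl

theorem lau_supp {z : Pair φ} (hz : z ∈ lau φ) :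
    ∃ a b : ℤ, ∀ i, (i < a ∨ b < i) → z.1.coeff i = 0 := by
  obtain ⟨a, ha⟩ := z.1.bdd
  obtain ⟨b, hb⟩ := z.2.bdd
  refine ⟨a, -b, ?_⟩
  rintro i (hi | hi)
  · exact ha i hi
  · have h1 := hz (-i)
    rw [neg_neg] at h1
    rw [← h1]
    exact hb _ (by lia)

/-- polynomials `∑_{i ≤ N} a_i y^i` -/
noncomputable def pol (φ : RingAut K) (N : ℕ) (a : Fin (N + 1) → K) : Pair φ :=
  ∑ i : Fin (N + 1), mon φ (a i) (i : ℕ)

theorem pol_mem (N : ℕ) (a : Fin (N + 1) → K) : pol φ N a ∈ lau φ :=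
  Subring.sum_mem _ fun i _ => mon_mem _ _

theorem pol_fst (N : ℕ) (a : Fin (N + 1) → K) :
    (pol φ N a).1 = ∑ i : Fin (N + 1), sgl φ (a i) (i : ℕ) := by
  rw [pol, Prod.fst_sum]
  rfl

theorem pol_coeff (N : ℕ) (a : Fin (N + 1) → K) (i : Fin (N + 1)) :
    (pol φ N a).1.coeff (i : ℕ) = a i := by
  rw [pol_fst, SkewLaurent.coeff_sum, Finset.sum_eq_single i]
  · rw [sgl_coeff, if_pos rfl]
  · intro j _ hj
    rw [sgl_coeff, if_neg]
    intro h
    exact hj (Fin.ext (by exact_mod_cast h.symm))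
  · intro h
    exact absurd (Finset.mem_univ _) h

theorem pol_mul_coeff (N : ℕ) (a : Fin (N + 1) → K) (z : Pair φ) (n : ℤ) :
    (pol φ N a * z).1.coeff n = ∑ i : Fin (N + 1), a i * (φ ^ ((i : ℕ) : ℤ)) (z.1.coeff (n - (i : ℕ))) := by
  show ((pol φ N a).1 * z.1).coeff n = _
  rw [pol_fst, Finset.sum_mul, SkewLaurent.coeff_sum]
  exact Finset.sum_congr rfl fun i _ => sgl_mul_coeff _ _ _ _

theorem fst_inj_lau {z w : Pair φ} (hz : z ∈ lau φ) (hw : w ∈ lau φ) (h : z.1 = w.1) : z = w := by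
  have h1 : z - w = 0 := (lau_eq_zero (Subring.sub_mem _ hz hw)).2 (by
    show z.1 - w.1 = 0
    rw [h, sub_self])
  exact sub_eq_zero.1 h1

/-- The left Ore property of `K[y,y⁻¹;φ]`. -/
theorem ore {P Q : Pair φ} (hP : P ∈ lau φ) (hQ : Q ∈ lau φ) (hQ0 : Q ≠ 0) :
    ∃ A B : Pair φ, A ∈ lau φ ∧ B ∈ lau φ ∧ A ≠ 0 ∧ A * P = B * Q := by
  obtain ⟨a1, b1, h1⟩ := lau_supp hP
  obtain ⟨a2, b2, h2⟩ := lau_supp hQ
  set a := min a1 a2 with ha
  set b := max (max b1 b2) a with hb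
  have hP' : ∀ i, (i < a ∨ b < i) → P.1.coeff i = 0 := by
    rintro i (hi | hi)
    · exact h1 i (Or.inl (by lia))
    · exact h1 i (Or.inr (by lia))
  have hQ' : ∀ i, (i < a ∨ b < i) → Q.1.coeff i = 0 := by
    rintro i (hi | hi)
    · exact h2 i (Or.inl (by lia))
    · exact h2 i (Or.inr (by lia))
  obtain ⟨N, hN⟩ : ∃ N : ℕ, b - a = N := ⟨(b - a).toNat, by lia⟩
  let f : ((Fin (N + 1) → K) × (Fin (N + 1) → K)) →ₗ[K] (Fin (2 * N + 1) → K) :=
    { toFun := fun x m => (∑ i : Fin (N + 1),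
        x.1 i * (φ ^ ((i : ℕ) : ℤ)) (P.1.coeff (a + (m : ℕ) - (i : ℕ)))) -
        ∑ i : Fin (N + 1), x.2 i * (φ ^ ((i : ℕ) : ℤ)) (Q.1.coeff (a + (m : ℕ) - (i : ℕ)))
      map_add' := by
        intro x x'
        ext m
        simp only [Prod.fst_add, Prod.snd_add, Pi.add_apply, add_mul, Finset.sum_add_distrib]
        ring
      map_smul' := by
        intro c x
        ext m
        simp only [Prod.smul_fst, Prod.smul_snd, Pi.smul_apply, smul_eq_mul, RingHom.id_apply,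
          mul_sub, Finset.mul_sum, mul_assoc] }
  have hker : LinearMap.ker f ≠ ⊥ := by
    apply LinearMap.ker_ne_bot_of_finrank_lt
    rw [Module.finrank_prod, Module.finrank_fin_fun, Module.finrank_fin_fun]
    lia
  obtain ⟨x, hx, hx0⟩ := (Submodule.ne_bot_iff _).1 hker
  rw [LinearMap.mem_ker] at hx
  have hE : pol φ N x.1 * P = pol φ N x.2 * Q := by
    apply fst_inj_lau (Subring.mul_mem _ (pol_mem _ _) hP) (Subring.mul_mem _ (pol_mem _ _) hQ)
    ext n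
    rw [pol_mul_coeff, pol_mul_coeff]
    by_cases hn : a ≤ n ∧ n ≤ a + 2 * N
    · obtain ⟨m, hm⟩ : ∃ m : ℕ, n = a + m := ⟨(n - a).toNat, by lia⟩
      have hm2 : m < 2 * N + 1 := by lia
      have h3 := congrFun hx ⟨m, hm2⟩
      rw [hm]
      exact sub_eq_zero.1 h3
    · have h4 : ∀ (W : Pair φ), (∀ i, (i < a ∨ b < i) → W.1.coeff i = 0) →
          ∀ (w : Fin (N + 1) → K), ∑ i : Fin (N + 1),
            w i * (φ ^ ((i : ℕ) : ℤ)) (W.1.coeff (n - (i : ℕ))) = 0 := by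
        intro W hW w
        apply Finset.sum_eq_zero
        intro i _
        have hi := i.2
        rw [hW (n - (i : ℕ)) (by lia), map_zero, mul_zero]
      rw [h4 P hP', h4 Q hQ']
  refine ⟨pol φ N x.1, pol φ N x.2, pol_mem _ _, pol_mem _ _, ?_, hE⟩
  intro h0
  rw [h0, zero_mul] at hE
  have hB : (pol φ N x.2).1 * Q.1 = 0 := congrArg Prod.fst hE.symm
  have hQ1 : Q.1 ≠ 0 := fun h => hQ0 ((lau_eq_zero hQ).2 h)
  have hB0 : (pol φ N x.2).1 = 0 := (mul_eq_zero.1 hB).resolve_right hQ1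
  apply hx0
  refine Prod.ext ?_ ?_
  · ext i
    rw [← pol_coeff (φ := φ) N x.1 i, h0]
    rfl
  · ext i
    rw [← pol_coeff (φ := φ) N x.2 i, hB0]
    rfl

theorem lau_mul_ne {P Q : Pair φ} (hP : P ∈ lau φ) (hQ : Q ∈ lau φ) (hP0 : P ≠ 0) (hQ0 : Q ≠ 0) :
    P * Q ≠ 0 := by
  intro h
  have h1 : P.1 * Q.1 = 0 := congrArg Prod.fst h
  rcases mul_eq_zero.1 h1 with h2 | h2
  · exact hP0 ((lau_eq_zero hP).2 h2)
  · exact hQ0 ((lau_eq_zero hQ).2 h2)

/-- `K(y;φ)` as the ring of the pairs of expansions of the left fractions. -/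
noncomputable def Dsub (φ : RingAut K) : Subring (Pair φ) where
  carrier := {z | ∃ P ∈ lau φ, P ≠ 0 ∧ P * z ∈ lau φ}
  mul_mem' := by
    rintro z w ⟨P, hP, hP0, hz⟩ ⟨Q, hQ, hQ0, hw⟩
    obtain ⟨A, B, hA, hB, hA0, hAB⟩ := ore hz hQ hQ0
    refine ⟨A * P, Subring.mul_mem _ hA hP, lau_mul_ne hA hP hA0 hP0, ?_⟩
    have h1 : A * P * (z * w) = B * (Q * w) := by
      calc A * P * (z * w) = A * (P * z) * w := by simp only [mul_assoc]
        _ = B * (Q * w) := by rw [hAB, mul_assoc]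
    rw [h1]
    exact Subring.mul_mem _ hB hw
  one_mem' := ⟨1, Subring.one_mem _, one_ne_zero, by rw [one_mul]; exact Subring.one_mem _⟩
  add_mem' := by
    rintro z w ⟨P, hP, hP0, hz⟩ ⟨Q, hQ, hQ0, hw⟩
    obtain ⟨A, B, hA, hB, hA0, hAB⟩ := ore hP hQ hQ0
    refine ⟨A * P, Subring.mul_mem _ hA hP, lau_mul_ne hA hP hA0 hP0, ?_⟩
    have h1 : A * P * (z + w) = A * (P * z) + B * (Q * w) := by
      rw [mul_add, mul_assoc A P z, hAB, mul_assoc B Q w]
    rw [h1]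
    exact Subring.add_mem _ (Subring.mul_mem _ hA hz) (Subring.mul_mem _ hB hw)
  zero_mem' := ⟨1, Subring.one_mem _, one_ne_zero, by rw [one_mul]; exact Subring.zero_mem _⟩
  neg_mem' := by
    rintro z ⟨P, hP, hP0, hz⟩
    refine ⟨P, hP, hP0, ?_⟩
    rw [mul_neg]
    exact Subring.neg_mem _ hz

theorem mem_Dsub {z : Pair φ} : z ∈ Dsub φ ↔ ∃ P ∈ lau φ, P ≠ 0 ∧ P * z ∈ lau φ := Iff.rfl

theorem lau_le_Dsub : lau φ ≤ Dsub φ := by
  intro z hz
  exact ⟨1, Subring.one_mem _, one_ne_zero, by rw [one_mul]; exact hz⟩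

theorem Dsub_fst {z : Pair φ} (hz : z ∈ Dsub φ) (h : z.1 = 0) : z = 0 := by
  obtain ⟨P, hP, hP0, h1⟩ := hz
  have h2 : P * z = 0 := (lau_eq_zero h1).2 (by
    show P.1 * z.1 = 0
    rw [h, mul_zero])
  have h3 : P.2 * z.2 = 0 := congrArg Prod.snd h2
  have h4 : P.2 ≠ 0 := fun h => hP0 ((lau_eq_zero' hP).2 h)
  exact Prod.ext h ((mul_eq_zero.1 h3).resolve_left h4)

theorem Dsub_snd {z : Pair φ} (hz : z ∈ Dsub φ) (h : z.2 = 0) : z = 0 := by
  obtain ⟨P, hP, hP0, h1⟩ := hz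
  have h2 : P * z = 0 := (lau_eq_zero' h1).2 (by
    show P.2 * z.2 = 0
    rw [h, mul_zero])
  have h3 : P.1 * z.1 = 0 := congrArg Prod.fst h2
  have h4 : P.1 ≠ 0 := fun h => hP0 ((lau_eq_zero hP).2 h)
  exact Prod.ext ((mul_eq_zero.1 h3).resolve_left h4) h

theorem Dsub_inv {z : Pair φ} (hz : z ∈ Dsub φ) : ((z.1⁻¹, z.2⁻¹) : Pair φ) ∈ Dsub φ := by
  by_cases h0 : z = 0
  · rw [h0]
    show ((0⁻¹, 0⁻¹) : Pair φ) ∈ Dsub φ
    rw [inv_zero, inv_zero]
    exact Subring.zero_mem _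
  obtain ⟨P, hP, hP0, h1⟩ := hz
  have hz1 : z.1 ≠ 0 := fun h => h0 (Dsub_fst ⟨P, hP, hP0, h1⟩ h)
  have hz2 : z.2 ≠ 0 := fun h => h0 (Dsub_snd ⟨P, hP, hP0, h1⟩ h)
  refine ⟨P * z, h1, ?_, ?_⟩
  · intro h
    have h3 : P.1 * z.1 = 0 := congrArg Prod.fst h
    rcases mul_eq_zero.1 h3 with h4 | h4
    · exact hP0 ((lau_eq_zero hP).2 h4)
    · exact hz1 h4
  · have h2 : P * z * ((z.1⁻¹, z.2⁻¹) : Pair φ) = P := by
      refine Prod.ext ?_ ?_
      · show P.1 * z.1 * z.1⁻¹ = P.1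
        rw [mul_inv_cancel_right₀ hz1]
      · show P.2 * z.2 * z.2⁻¹ = P.2
        rw [mul_inv_cancel_right₀ hz2]
    rw [h2]
    exact hP

/-- The division ring `K(y;φ)`. -/
def DD (φ : RingAut K) : Type := ↥(Dsub φ)

noncomputable instance : Ring (DD φ) := inferInstanceAs (Ring ↥(Dsub φ))

noncomputable instance : DivisionRing (DD φ) where
  inv z := ⟨(z.1.1⁻¹, z.1.2⁻¹), Dsub_inv z.2⟩
  mul_inv_cancel := by
    rintro ⟨z, hz⟩ h0
    have h0' : z ≠ 0 := fun h => h0 (Subtype.ext h)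
    apply Subtype.ext
    refine Prod.ext ?_ ?_
    · exact mul_inv_cancel₀ fun h => h0' (Dsub_fst hz h)
    · exact mul_inv_cancel₀ fun h => h0' (Dsub_snd hz h)
  inv_zero := by
    apply Subtype.ext
    refine Prod.ext ?_ ?_
    · exact inv_zero
    · exact inv_zero
  exists_pair_ne := ⟨0, 1, fun h => by
    have h1 := congrArg (fun z : DD φ => z.1.1) h
    exact zero_ne_one h1⟩
  nnqsmul := _
  nnqsmul_def := fun _ _ => rfl
  qsmul := _
  qsmul_def := fun _ _ => rfl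

/-- the expansion in `y` -/
noncomputable def ψ (φ : RingAut K) : DD φ →+* SkewLaurent K φ :=
  (RingHom.fst _ _).comp (Dsub φ).subtype

/-- the expansion in `y⁻¹` -/
noncomputable def ψ' (φ : RingAut K) : DD φ →+* SkewLaurent K φ⁻¹ :=
  (RingHom.snd _ _).comp (Dsub φ).subtype

/-- `f y^n` in `K(y;φ)` -/
noncomputable def mo (φ : RingAut K) (f : K) (n : ℤ) : DD φ := ⟨mon φ f n, lau_le_Dsub (mon_mem f n)⟩

theorem mo_mul (f g : K) (n m : ℤ) : mo φ f n * mo φ g m = mo φ (f * (φ ^ n) g) (n + m) :=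
  Subtype.ext (mon_mul f g n m)

/-- The Laurent polynomials as a subring of `K(y;φ)`. -/
noncomputable def RR (φ : RingAut K) : Subring (DD φ) := (lau φ).comap (Dsub φ).subtype

theorem mem_RR {d : DD φ} : d ∈ RR φ ↔ ∀ i : ℤ, (ψ' φ d).coeff i = (ψ φ d).coeff (-i) := Iff.rfl

theorem mo_mem (f : K) (n : ℤ) : mo φ f n ∈ RR φ := mon_mem f n

/-- the embedding of `K` -/
noncomputable def ι (φ : RingAut K) : K →+* DD φ where
  toFun f := mo φ f 0
  map_one' := by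
    apply Subtype.ext
    show ((sgl φ 1 0, sgl φ⁻¹ 1 (-0)) : Pair φ) = 1
    rw [neg_zero, sgl_one, sgl_one]
    rfl
  map_mul' := by
    intro f g
    rw [mo_mul, zpow_zero, add_zero]
    rfl
  map_zero' := by
    apply Subtype.ext
    show ((sgl φ 0 0, sgl φ⁻¹ 0 (-0)) : Pair φ) = 0
    rw [sgl_zero, sgl_zero]
    rfl
  map_add' := by
    intro f g
    apply Subtype.ext
    show ((sgl φ (f + g) 0, sgl φ⁻¹ (f + g) (-0)) : Pair φ) = _
    rw [sgl_add, sgl_add]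
    rfl

/-- the variable `y` -/
noncomputable def y (φ : RingAut K) : DD φ := mo φ 1 1

theorem ι_eq (f : K) : ι φ f = mo φ f 0 := rfl

theorem y_mul_ι (f : K) : y φ * ι φ f = ι φ (φ f) * y φ := by
  rw [y, ι_eq, ι_eq, mo_mul, mo_mul, one_mul, zpow_one, zpow_zero, add_zero, zero_add]
  congr 1
  show φ f = φ f * (1 : RingAut K) 1
  rw [map_one, mul_one]

theorem mo_mo_inv (n : ℤ) : mo φ (1 : K) n * mo φ 1 (-n) = 1 := by
  rw [mo_mul, map_one, mul_one, add_neg_cancel]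
  exact (ι φ).map_one

theorem y_pow (n : ℤ) : y φ ^ n = mo φ 1 n := by
  have h0 : ∀ n : ℕ, y φ ^ n = mo φ 1 (n : ℤ) := by
    intro n
    induction n with
    | zero => exact (ι φ).map_one.symm
    | succ n ih =>
      rw [pow_succ, ih, y, mo_mul, map_one, mul_one]
      push_cast
      rfl
  obtain ⟨m, rfl | rfl⟩ := n.eq_nat_or_neg
  · rw [zpow_natCast, h0]
  · rw [zpow_neg, zpow_natCast, h0]
    exact (eq_inv_of_mul_eq_one_right (mo_mo_inv (m : ℤ))).symm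

theorem mo_eq (f : K) (n : ℤ) : mo φ f n = ι φ f * y φ ^ n := by
  rw [y_pow, ι_eq, mo_mul, zpow_zero, zero_add]
  congr 1
  exact (mul_one f).symm

theorem y_ne_zero : y φ ≠ 0 := by
  intro h
  have h1 := mo_mo_inv (φ := φ) 1
  rw [← y, h, zero_mul] at h1
  exact zero_ne_one h1

theorem ψ_inj {d : DD φ} (h : ψ φ d = 0) : d = 0 := Subtype.ext (Dsub_fst d.2 h)

theorem ψ'_inj {d : DD φ} (h : ψ' φ d = 0) : d = 0 := Subtype.ext (Dsub_snd d.2 h)

theorem ψ_mo (f : K) (n : ℤ) : ψ φ (mo φ f n) = sgl φ f n := rfl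

theorem ψ'_mo (f : K) (n : ℤ) : ψ' φ (mo φ f n) = sgl φ⁻¹ f (-n) := rfl

/-- every element of `K(y;φ)` has a left denominator in `K[y,y⁻¹;φ]` -/
theorem left_den (d : DD φ) : ∃ P ∈ RR φ, P ≠ 0 ∧ P * d ∈ RR φ := by
  obtain ⟨P, hP, hP0, h⟩ := d.2
  exact ⟨⟨P, lau_le_Dsub hP⟩, hP, fun h' => hP0 (congrArg Subtype.val h'), h⟩

end SL

end Pool.Agent.Q2N
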